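import Pool.Agent.Helper702.BP.Coherent

/-!
# MP_79af62_gt: Bang's affine plank inequality for block coherent directions
-/

set_option autoImplicit false

namespace Pool.Agent.Results.MP_79af62_gt.BlockCoherentPlanks

open Pool.Agent.Helper702.BP

/-- **Main theorem.** Let a convex body `C` in `E^d` be covered by finitely many planks whose
directions `u i` are block coherent with respect to `C`, or have a common support point. Then the
`C`-widths of the planks sum to at least `1`. -/
theorem result (d n : ℕ) (C : Set (EuclideanSpace ℝ (Fin d)))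
    (hC : IsCompact C) (hCc : Convex ℝ C) (hCi : (interior C).Nonempty)
    (u : Fin n → EuclideanSpace ℝ (Fin d)) (a b : Fin n → ℝ)
    (hu : ∀ i, u i ≠ 0) (hab : ∀ i, a i < b i)
    (h : BlockCoherent C u ∨ CommonPoint C u)
    (hcov : C ⊆ ⋃ i, {x | a i ≤ inner ℝ (u i) x ∧ inner ℝ (u i) x ≤ b i}) :
    1 ≤ ∑ i, (b i - a i) /
      (sSup ((fun x => inner ℝ (u i) x) '' C) - sInf ((fun x => inner ℝ (u i) x) '' C)) := by
  have h' : BlockCoherent C u :=
    h.elim id fun h => blockCoherent_of_signCoherent (signCoherent_of_commonPoint hC h)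
  obtain ⟨p, q, hpq, hst⟩ := blockCoherent_stable h'
  have hsup : ∀ i, sSup ((fun x => inner ℝ (u i) x) '' C) = inner ℝ (u i) (p i) := fun i =>
    sSup_of_ext (hpq i).1 (fun x hx => ((hpq i).2.2 x hx).2)
  have hinf : ∀ i, sInf ((fun x => inner ℝ (u i) x) '' C) = inner ℝ (u i) (q i) := fun i =>
    sInf_of_ext (hpq i).2.1 (fun x hx => ((hpq i).2.2 x hx).1)
  simp only [hsup, hinf]
  exact planks_stable hCc (hCi.mono interior_subset) (fun i => (hpq i).1) (fun i => (hpq i).2.1)
    (fun i => width_pos hCi (hu i) (hpq i).2.2) hst a b (fun i => (hab i).le)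
    (fun x hx => Set.mem_iUnion.mp (hcov hx))

end Pool.Agent.Results.MP_79af62_gt.BlockCoherentPlanks
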